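import Pool.Agent.W472.AC.EMeas2
import Pool.Agent.N743.Engine

/-!
# Relations between `1, e, …, e^n` and a real number `t`: elimination
-/

set_option autoImplicit false

namespace Pool.Agent.U175.Rel

open Polynomial Finset

/-- the linear form `v_0 + v_1 e + ⋯ + v_n e^n + v_{n+1} t` -/
noncomputable def form (n : ℕ) (t : ℝ) (v : Fin (n + 2) → ℤ) : ℝ :=
  (∑ i : Fin (n + 1), (v i.castSucc : ℝ) * Real.exp 1 ^ (i : ℕ)) + v (Fin.last (n + 1)) * t

/-- `v` and `w` are proportional -/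
def Prop2 {k : ℕ} (v w : Fin k → ℤ) : Prop := ∃ a b : ℤ, a ≠ 0 ∧ b ≠ 0 ∧ a • v = b • w

lemma Prop2.refl {k : ℕ} (v : Fin k → ℤ) : Prop2 v v := ⟨1, 1, one_ne_zero, one_ne_zero, rfl⟩

lemma Prop2.symm {k : ℕ} {v w : Fin k → ℤ} (h : Prop2 v w) : Prop2 w v := by
  obtain ⟨a, b, ha, hb, h⟩ := h
  exact ⟨b, a, hb, ha, h.symm⟩

lemma Prop2.trans {k : ℕ} {v w z : Fin k → ℤ} (h : Prop2 v w) (h' : Prop2 w z) : Prop2 v z := by
  obtain ⟨a, b, ha, hb, h⟩ := h
  obtain ⟨c, d, hc, hd, h'⟩ := h'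
  refine ⟨c * a, b * d, mul_ne_zero hc ha, mul_ne_zero hb hd, ?_⟩
  rw [mul_smul, h, smul_comm c b w, h', ← mul_smul]

/-- the polynomial with the coefficients `a` -/
noncomputable def poly (n : ℕ) (a : Fin (n + 1) → ℤ) : ℤ[X] :=
  ∑ i : Fin (n + 1), C (a i) * X ^ (i : ℕ)

lemma poly_coeff (n : ℕ) (a : Fin (n + 1) → ℤ) (j : ℕ) :
    (poly n a).coeff j = if h : j < n + 1 then a ⟨j, h⟩ else 0 := by
  unfold poly
  rw [finsetSum_coeff]
  simp only [coeff_C_mul_X_pow]
  split_ifs with h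
  · rw [Finset.sum_eq_single (⟨j, h⟩ : Fin (n + 1))]
    · simp
    · intro b _ hb
      rw [if_neg]
      intro hj
      apply hb
      apply Fin.ext
      exact hj.symm
    · intro hcon
      exact absurd (Finset.mem_univ _) hcon
  · refine Finset.sum_eq_zero fun i _ => ?_
    rw [if_neg]
    intro hj
    apply h
    rw [hj]
    exact i.2

lemma poly_deg (n : ℕ) (a : Fin (n + 1) → ℤ) : (poly n a).natDegree ≤ n := by
  rw [natDegree_le_iff_coeff_eq_zero]
  intro j hj
  rw [poly_coeff, dif_neg (by omega)]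

lemma poly_eval (n : ℕ) (a : Fin (n + 1) → ℤ) (x : ℝ) :
    aeval x (poly n a) = ∑ i : Fin (n + 1), (a i : ℝ) * x ^ (i : ℕ) := by
  unfold poly
  rw [map_sum]
  refine Finset.sum_congr rfl fun i _ => ?_
  rw [map_mul, map_pow, aeval_X, aeval_C]
  simp

lemma poly_ne (n : ℕ) (a : Fin (n + 1) → ℤ) (ha : a ≠ 0) : poly n a ≠ 0 := by
  intro h
  apply ha
  funext i
  have h1 := poly_coeff n a i
  rw [h, coeff_zero, dif_pos i.2] at h1
  exact h1.symm

/-- the elimination of `t` -/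
theorem elim (n : ℕ) (η : ℝ) (hη : 0 < η) : ∃ c : ℝ, 0 < c ∧
    ∀ (t : ℝ) (v w : Fin (n + 2) → ℤ), v ≠ 0 → w ≠ 0 → ¬ Prop2 v w →
      ∀ s s' : ℝ, 1 ≤ s → 1 ≤ s' → (∀ i, |(v i : ℝ)| ≤ s) → (∀ i, |(w i : ℝ)| ≤ s') →
        c * (s * s') ^ (-((n : ℝ) + η)) ≤ s' * |form n t v| + s * |form n t w| := by
  obtain ⟨c₁, hc₁, hm⟩ := Pool.Agent.W472.AC.e_measP n η hη
  have hn0 : (0 : ℝ) ≤ n := Nat.cast_nonneg n
  refine ⟨c₁ / 2 ^ ((n : ℝ) + η), by positivity, fun t v w hv hw hvw s s' hs hs' hvs hws' => ?_⟩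
  have hss : 1 ≤ s * s' := by nlinarith
  have hss0 : 0 < s * s' := by linarith
  -- a lower bound for the values of polynomials
  have key : ∀ a : Fin (n + 1) → ℤ, a ≠ 0 → (∀ i, |(a i : ℝ)| ≤ 2 * (s * s')) →
      c₁ / 2 ^ ((n : ℝ) + η) * (s * s') ^ (-((n : ℝ) + η)) ≤
        |∑ i : Fin (n + 1), (a i : ℝ) * Real.exp 1 ^ (i : ℕ)| := by
    intro a ha hab
    have h1 := hm (poly n a) (poly_ne n a ha) (poly_deg n a) (2 * (s * s')) (by linarith)
      (fun j => by
        rw [poly_coeff]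
        split_ifs with h
        · exact hab _
        · simp
          linarith)
    rw [poly_eval, Real.mul_rpow (by norm_num) hss0.le] at h1
    have h2 : 0 < (2 : ℝ) ^ ((n : ℝ) + η) := by positivity
    have h3 : 0 < (s * s') ^ ((n : ℝ) + η) := by positivity
    rw [Real.rpow_neg hss0.le, div_mul_eq_mul_div, div_le_iff₀ h2, ← div_eq_mul_inv,
      div_le_iff₀ h3]
    calc c₁ ≤ _ := h1
      _ = _ := by ring
  obtain ⟨cv, hcv⟩ : ∃ c, c = v (Fin.last (n + 1)) := ⟨_, rfl⟩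
  obtain ⟨cw, hcw⟩ : ∃ c, c = w (Fin.last (n + 1)) := ⟨_, rfl⟩
  have hfv : form n t v =
      (∑ i : Fin (n + 1), (v i.castSucc : ℝ) * Real.exp 1 ^ (i : ℕ)) + cv * t := by
    rw [form, hcv]
  have hfw : form n t w =
      (∑ i : Fin (n + 1), (w i.castSucc : ℝ) * Real.exp 1 ^ (i : ℕ)) + cw * t := by
    rw [form, hcw]
  have hcvs : |(cv : ℝ)| ≤ s := by rw [hcv]; exact hvs _
  have hcws : |(cw : ℝ)| ≤ s' := by rw [hcw]; exact hws' _
  obtain ⟨a, ha⟩ : ∃ a : Fin (n + 1) → ℤ, a = fun i => cw * v i.castSucc - cv * w i.castSucc :=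
    ⟨_, rfl⟩
  have hval : ∑ i : Fin (n + 1), (a i : ℝ) * Real.exp 1 ^ (i : ℕ) =
      cw * form n t v - cv * form n t w := by
    rw [hfv, hfw, ha]
    have h1 : ∑ i : Fin (n + 1), (((cw * v i.castSucc - cv * w i.castSucc : ℤ) : ℤ) : ℝ) *
        Real.exp 1 ^ (i : ℕ) =
        cw * (∑ i : Fin (n + 1), (v i.castSucc : ℝ) * Real.exp 1 ^ (i : ℕ)) -
        cv * (∑ i : Fin (n + 1), (w i.castSucc : ℝ) * Real.exp 1 ^ (i : ℕ)) := by
      rw [Finset.mul_sum, Finset.mul_sum, ← Finset.sum_sub_distrib]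
      refine Finset.sum_congr rfl fun i _ => ?_
      push_cast
      ring
    rw [h1]
    ring
  by_cases ha0 : a = 0
  · -- then both last coefficients vanish
    have h1 : cw • v = cv • w := by
      funext i
      refine Fin.lastCases ?_ (fun j => ?_) i
      · show cw * v (Fin.last (n + 1)) = cv * w (Fin.last (n + 1))
        rw [← hcv, ← hcw, mul_comm]
      · have h2 := congrFun ha0 j
        rw [ha] at h2
        simp only [Pi.zero_apply] at h2
        show cw * v j.castSucc = cv * w j.castSucc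
        linarith
    have h2 : cv = 0 ∧ cw = 0 := by
      by_cases hcv0 : cv = 0
      · refine ⟨hcv0, ?_⟩
        by_contra hcw0
        rw [hcv0, zero_smul] at h1
        rcases smul_eq_zero.1 h1 with h | h
        · exact hcw0 h
        · exact hv h
      · by_cases hcw0 : cw = 0
        · rw [hcw0, zero_smul] at h1
          rcases smul_eq_zero.1 h1.symm with h | h
          · exact absurd h hcv0
          · exact absurd h hw
        · exact absurd ⟨cw, cv, hcw0, hcv0, h1⟩ hvw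
    have h3 : (fun i : Fin (n + 1) => v i.castSucc) ≠ 0 := by
      intro h
      apply hv
      funext i
      refine Fin.lastCases ?_ (fun j => ?_) i
      · rw [← hcv, h2.1]; rfl
      · exact congrFun h j
    have h4 := key (fun i => v i.castSucc) h3 (fun i => (hvs _).trans (by nlinarith))
    have h5 : form n t v = ∑ i : Fin (n + 1), (v i.castSucc : ℝ) * Real.exp 1 ^ (i : ℕ) := by
      rw [hfv, h2.1]
      simp
    rw [← h5] at h4
    refine h4.trans ?_
    have h6 : 0 ≤ |form n t v| := abs_nonneg _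
    have h7 : 0 ≤ s * |form n t w| := by positivity
    nlinarith
  · have h1 := key a ha0 (fun i => by
      rw [ha]
      push_cast
      calc |(cw : ℝ) * v i.castSucc - cv * w i.castSucc|
          ≤ |(cw : ℝ) * v i.castSucc| + |(cv : ℝ) * w i.castSucc| := abs_sub _ _
        _ = |(cw : ℝ)| * |(v i.castSucc : ℝ)| + |(cv : ℝ)| * |(w i.castSucc : ℝ)| := by
            rw [abs_mul, abs_mul]
        _ ≤ s' * s + s * s' := by
            have h2 := hvs i.castSucc
            have h3 := hws' i.castSucc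
            gcongr
        _ = 2 * (s * s') := by ring)
    rw [hval] at h1
    refine h1.trans ?_
    calc |(cw : ℝ) * form n t v - cv * form n t w|
        ≤ |(cw : ℝ) * form n t v| + |(cv : ℝ) * form n t w| := abs_sub _ _
      _ = |(cw : ℝ)| * |form n t v| + |(cv : ℝ)| * |form n t w| := by rw [abs_mul, abs_mul]
      _ ≤ _ := by gcongr

end Pool.Agent.U175.Rel
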