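import Pool.Agent.U175.Rel.Core
import Pool.Agent.N743.Dg.Asym

/-!
# The digits of the numbers `β_1 e + ⋯ + β_n e^n + γ t`
-/

set_option autoImplicit false

namespace Pool.Agent.U175.Rel

open Finset
open Pool.Agent.N743.Dg (F approx complexity complexity_spec F_linear F_pos)

/-- the number `β_1 e + ⋯ + β_n e^n + γ t`, `(β, γ) = w` -/
noncomputable def num (n : ℕ) (t : ℝ) (w : Fin (n + 1) → ℤ) : ℝ :=
  (∑ i : Fin n, (w i.castSucc : ℝ) * Real.exp 1 ^ ((i : ℕ) + 1)) + w (Fin.last n) * t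

lemma form_cons (n : ℕ) (t : ℝ) (p q : ℤ) (w : Fin (n + 1) → ℤ) :
    form n t (Fin.cons (-p) (q • w)) = q * num n t w - p := by
  unfold form num
  rw [Fin.sum_univ_succ, mul_add, Finset.mul_sum]
  have h0 : (Fin.cons (-p) (q • w) : Fin (n + 2) → ℤ) (Fin.castSucc (0 : Fin (n + 1))) = -p := by
    rfl
  have h1 : ∀ i : Fin n, (Fin.cons (-p) (q • w) : Fin (n + 2) → ℤ) (Fin.castSucc i.succ) =
      q * w i.castSucc := by
    intro i
    have : (Fin.castSucc i.succ : Fin (n + 2)) = (Fin.castSucc i).succ := rfl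
    rw [this, Fin.cons_succ]
    rfl
  have h2 : (Fin.cons (-p) (q • w) : Fin (n + 2) → ℤ) (Fin.last (n + 1)) =
      q * w (Fin.last n) := by
    have : (Fin.last (n + 1) : Fin (n + 2)) = (Fin.last n).succ := rfl
    rw [this, Fin.cons_succ]
    rfl
  rw [h0, h2]
  simp only [h1]
  push_cast
  have h3 : ∑ i : Fin n, ((q : ℝ) * (w i.castSucc : ℝ)) * Real.exp 1 ^ ((i.succ : Fin (n + 1)) : ℕ) =
      ∑ i : Fin n, (q : ℝ) * ((w i.castSucc : ℝ) * Real.exp 1 ^ ((i : ℕ) + 1)) := by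
    refine Finset.sum_congr rfl fun i _ => ?_
    rw [Fin.val_succ]
    ring
  rw [h3]
  simp
  ring

/-- the constant of the trivial bound for the numbers -/
noncomputable def Bt (n : ℕ) (t : ℝ) : ℝ := (∑ i : Fin n, Real.exp 1 ^ ((i : ℕ) + 1)) + |t| + 1

lemma Bt_ge (n : ℕ) (t : ℝ) : 1 ≤ Bt n t := by
  unfold Bt
  have h1 : 0 ≤ ∑ i : Fin n, Real.exp 1 ^ ((i : ℕ) + 1) :=
    Finset.sum_nonneg fun i _ => by positivity
  have := abs_nonneg t
  linarith

lemma num_le (n : ℕ) (t : ℝ) (w : Fin (n + 1) → ℤ) (H : ℝ) (_hH : 0 ≤ H)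
    (hw : ∀ i, |(w i : ℝ)| ≤ H) : |num n t w| ≤ (Bt n t - 1) * H := by
  unfold num Bt
  have h1 : |∑ i : Fin n, (w i.castSucc : ℝ) * Real.exp 1 ^ ((i : ℕ) + 1)| ≤
      ∑ i : Fin n, H * Real.exp 1 ^ ((i : ℕ) + 1) := by
    refine (Finset.abs_sum_le_sum_abs _ _).trans (Finset.sum_le_sum fun i _ => ?_)
    rw [abs_mul, abs_of_pos (by positivity : (0 : ℝ) < Real.exp 1 ^ ((i : ℕ) + 1))]
    exact mul_le_mul_of_nonneg_right (hw _) (by positivity)
  rw [← Finset.mul_sum] at h1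
  have h2 : |(w (Fin.last n) : ℝ) * t| ≤ H * |t| := by
    rw [abs_mul]
    exact mul_le_mul_of_nonneg_right (hw _) (abs_nonneg _)
  have h3 := abs_add_le (∑ i : Fin n, (w i.castSucc : ℝ) * Real.exp 1 ^ ((i : ℕ) + 1))
    ((w (Fin.last n) : ℝ) * t)
  calc _ ≤ _ := h3
    _ ≤ H * (∑ i : Fin n, Real.exp 1 ^ ((i : ℕ) + 1)) + H * |t| := add_le_add h1 h2
    _ = _ := by ring

/-- two good approximations give two small relations -/
theorem two_rel (n : ℕ) (η : ℝ) (hη : 0 < η) (t : ℝ) : ∃ c₂ : ℝ, 0 ≤ c₂ ∧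
    ∀ w w' : Fin (n + 1) → ℤ, w ≠ 0 → w' ≠ 0 → ¬ Prop2 w w' → ∀ h h' : ℝ, 0 ≤ h → 0 ≤ h' →
      (∀ i, |(w i : ℝ)| ≤ Real.exp h) → (∀ i, |(w' i : ℝ)| ≤ Real.exp h') →
      ∀ A A' Λ Λ' : ℝ, 0 ≤ A → 0 ≤ A' → 0 ≤ Λ → 0 ≤ Λ' → ∀ (q q' : ℕ) (p p' : ℤ), 1 ≤ q → 1 ≤ q' →
        (q : ℝ) ≤ Real.exp A → (q' : ℝ) ≤ Real.exp A' →
        |(q : ℝ) * num n t w - p| ≤ Real.exp (A - Λ) →
        |(q' : ℝ) * num n t w' - p'| ≤ Real.exp (A' - Λ') →
        min Λ Λ' ≤ (n + 1 + η) * (A + A' + h + h') + c₂ := by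
  obtain ⟨c, hc, hel⟩ := elim n η hη
  have hn0 : (0 : ℝ) ≤ n := Nat.cast_nonneg n
  obtain ⟨B, hB⟩ : ∃ B, B = Bt n t := ⟨_, rfl⟩
  have hB1 : 1 ≤ B := by rw [hB]; exact Bt_ge n t
  have hB0 : 0 < B := by linarith
  refine ⟨|Real.log (2 * B / c * B ^ (2 * ((n : ℝ) + η)))|, abs_nonneg _, ?_⟩
  intro w w' hw hw' hww h h' hh hh' hwh hwh' A A' Λ Λ' hA hA' hΛ hΛ' q q' p p' hq hq' hqA hqA' hap hap'
  have hq1 : (1 : ℝ) ≤ q := by exact_mod_cast hq
  have hq1' : (1 : ℝ) ≤ q' := by exact_mod_cast hq'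
  have hqz : (q : ℤ) ≠ 0 := by exact_mod_cast (by omega : q ≠ 0)
  have hqz' : (q' : ℤ) ≠ 0 := by exact_mod_cast (by omega : q' ≠ 0)
  -- the vectors
  have size : ∀ (w : Fin (n + 1) → ℤ) (h A Λ : ℝ) (q : ℕ) (p : ℤ), 0 ≤ h → 0 ≤ A → 0 ≤ Λ → 1 ≤ (q : ℝ) →
      (q : ℝ) ≤ Real.exp A → (∀ i, |(w i : ℝ)| ≤ Real.exp h) →
      |(q : ℝ) * num n t w - p| ≤ Real.exp (A - Λ) →
      (∀ i, |((Fin.cons (-p) ((q : ℤ) • w) : Fin (n + 2) → ℤ) i : ℝ)| ≤ B * Real.exp (A + h)) := by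
    intro w h A Λ q p hh hA hΛ hq1 hqA hwh hap i
    refine Fin.cases ?_ (fun j => ?_) i
    · rw [Fin.cons_zero]
      push_cast
      rw [abs_neg]
      have h1 : |(p : ℝ)| ≤ |(q : ℝ) * num n t w| + |(q : ℝ) * num n t w - p| := by
        have := abs_sub ((q : ℝ) * num n t w) ((q : ℝ) * num n t w - p)
        simpa using this
      have h2 : |(q : ℝ) * num n t w| ≤ Real.exp A * ((B - 1) * Real.exp h) := by
        rw [abs_mul, abs_of_pos (by linarith : (0 : ℝ) < q)]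
        have h3 := num_le n t w (Real.exp h) (Real.exp_pos _).le hwh
        rw [← hB] at h3
        exact mul_le_mul hqA h3 (abs_nonneg _) (Real.exp_pos _).le
      have h3 : Real.exp (A - Λ) ≤ Real.exp (A + h) := Real.exp_le_exp.2 (by linarith)
      have h4 : Real.exp A * ((B - 1) * Real.exp h) = (B - 1) * Real.exp (A + h) := by
        rw [Real.exp_add]; ring
      rw [h4] at h2
      linarith
    · rw [Fin.cons_succ]
      have e1 : (((((q : ℤ) • w) j : ℤ)) : ℝ) = q * w j := by simp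
      rw [e1, abs_mul, abs_of_pos (by linarith : (0 : ℝ) < q), Real.exp_add]
      have h1 := hwh j
      calc (q : ℝ) * |(w j : ℝ)| ≤ Real.exp A * Real.exp h := by gcongr
        _ ≤ B * (Real.exp A * Real.exp h) := by
          have : 0 < Real.exp A * Real.exp h := by positivity
          nlinarith
  have nz : ∀ (w : Fin (n + 1) → ℤ) (q : ℕ) (p : ℤ), w ≠ 0 → (q : ℤ) ≠ 0 →
      (Fin.cons (-p) ((q : ℤ) • w) : Fin (n + 2) → ℤ) ≠ 0 := by
    intro w q p hw hq h0
    apply hw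
    funext j
    have h1 := congrFun h0 j.succ
    rw [Fin.cons_succ] at h1
    simp only [Pi.smul_apply, smul_eq_mul, Pi.zero_apply] at h1
    rcases mul_eq_zero.1 h1 with h2 | h2
    · exact absurd h2 hq
    · exact h2
  have hnp : ¬ Prop2 (Fin.cons (-p) ((q : ℤ) • w) : Fin (n + 2) → ℤ)
      (Fin.cons (-p') ((q' : ℤ) • w') : Fin (n + 2) → ℤ) := by
    rintro ⟨a, b, ha, hb, hab⟩
    apply hww
    refine ⟨a * q, b * q', mul_ne_zero ha hqz, mul_ne_zero hb hqz', ?_⟩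
    funext j
    have h1 := congrFun hab j.succ
    simp only [Pi.smul_apply, smul_eq_mul, Fin.cons_succ] at h1 ⊢
    linarith
  obtain ⟨s, hs⟩ : ∃ s, s = B * Real.exp (A + h) := ⟨_, rfl⟩
  obtain ⟨s', hs'⟩ : ∃ s, s = B * Real.exp (A' + h') := ⟨_, rfl⟩
  have he : 1 ≤ Real.exp (A + h) := Real.one_le_exp (by linarith)
  have he' : 1 ≤ Real.exp (A' + h') := Real.one_le_exp (by linarith)
  have hs1 : 1 ≤ s := by rw [hs]; nlinarith
  have hs1' : 1 ≤ s' := by rw [hs']; nlinarith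
  have hmain := hel t _ _ (nz w q p hw hqz) (nz w' q' p' hw' hqz') hnp s s' hs1 hs1'
    (by rw [hs]; exact size w h A Λ q p hh hA hΛ hq1 hqA hwh hap)
    (by rw [hs']; exact size w' h' A' Λ' q' p' hh' hA' hΛ' hq1' hqA' hwh' hap')
  rw [form_cons, form_cons] at hmain
  push_cast at hmain
  obtain ⟨l, hl⟩ : ∃ l, l = min Λ Λ' := ⟨_, rfl⟩
  have hlΛ : l ≤ Λ := by rw [hl]; exact min_le_left _ _
  have hlΛ' : l ≤ Λ' := by rw [hl]; exact min_le_right _ _
  rw [← hl]
  obtain ⟨T, hT⟩ : ∃ T, T = A + A' + h + h' := ⟨_, rfl⟩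
  have h1 : s' * |(q : ℝ) * num n t w - p| ≤ B * Real.exp (T - l) := by
    calc s' * |(q : ℝ) * num n t w - p| ≤ B * Real.exp (A' + h') * Real.exp (A - Λ) := by
          rw [hs']; gcongr
      _ = B * Real.exp ((A' + h') + (A - Λ)) := by rw [mul_assoc, ← Real.exp_add]
      _ ≤ _ := by
        rw [hT]
        gcongr
        linarith
  have h2 : s * |(q' : ℝ) * num n t w' - p'| ≤ B * Real.exp (T - l) := by
    calc s * |(q' : ℝ) * num n t w' - p'| ≤ B * Real.exp (A + h) * Real.exp (A' - Λ') := by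
          rw [hs]; gcongr
      _ = B * Real.exp ((A + h) + (A' - Λ')) := by rw [mul_assoc, ← Real.exp_add]
      _ ≤ _ := by
        rw [hT]
        gcongr
        linarith
  have h3 : c * (s * s') ^ (-((n : ℝ) + η)) ≤ 2 * B * Real.exp (T - l) := by linarith
  have hss : s * s' = B ^ (2 : ℝ) * Real.exp T := by
    have e1 : B ^ (2 : ℝ) = B * B := by
      rw [Real.rpow_two]; ring
    rw [hs, hs', e1, hT]
    have e2 : Real.exp (A + A' + h + h') = Real.exp (A + h) * Real.exp (A' + h') := by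
      rw [← Real.exp_add]; congr 1; ring
    rw [e2]; ring
  have h4 : (s * s') ^ (-((n : ℝ) + η)) =
      (B ^ (2 * ((n : ℝ) + η)))⁻¹ * Real.exp (-(((n : ℝ) + η) * T)) := by
    rw [hss, Real.mul_rpow (by positivity) (Real.exp_pos _).le, ← Real.rpow_mul hB0.le,
      ← Real.exp_mul]
    congr 1
    · rw [mul_neg, Real.rpow_neg hB0.le]
    · congr 1; ring
  rw [h4] at h3
  have hBp : 0 < B ^ (2 * ((n : ℝ) + η)) := by positivity
  have h5 : Real.exp l ≤ 2 * B / c * B ^ (2 * ((n : ℝ) + η)) * Real.exp (((n : ℝ) + 1 + η) * T) := by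
    have e1 : Real.exp (((n : ℝ) + 1 + η) * T) = Real.exp (T - l) * Real.exp l *
        Real.exp (((n : ℝ) + η) * T) := by
      rw [← Real.exp_add, ← Real.exp_add]; congr 1; ring
    have e2 : Real.exp (-(((n : ℝ) + η) * T)) * Real.exp (((n : ℝ) + η) * T) = 1 := by
      rw [← Real.exp_add]; simp
    have h6 : c * (B ^ (2 * ((n : ℝ) + η)))⁻¹ ≤ 2 * B * Real.exp (T - l) * Real.exp (((n : ℝ) + η) * T) := by
      calc c * (B ^ (2 * ((n : ℝ) + η)))⁻¹ =
            c * ((B ^ (2 * ((n : ℝ) + η)))⁻¹ * Real.exp (-(((n : ℝ) + η) * T))) *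
              Real.exp (((n : ℝ) + η) * T) := by
              rw [mul_assoc, mul_assoc, e2, mul_one]
        _ ≤ _ := by gcongr
    rw [← div_eq_mul_inv, div_le_iff₀ hBp] at h6
    have h7 : c * Real.exp l ≤ c * (2 * B / c * B ^ (2 * ((n : ℝ) + η)) *
        Real.exp (((n : ℝ) + 1 + η) * T)) := by
      calc c * Real.exp l ≤ (2 * B * Real.exp (T - l) * Real.exp (((n : ℝ) + η) * T) *
            B ^ (2 * ((n : ℝ) + η))) * Real.exp l := by gcongr
        _ = 2 * B * B ^ (2 * ((n : ℝ) + η)) * (Real.exp (T - l) * Real.exp l *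
            Real.exp (((n : ℝ) + η) * T)) := by ring
        _ = _ := by
          rw [← e1]
          field_simp
    exact le_of_mul_le_mul_left h7 hc
  have h6 := Real.log_le_log (Real.exp_pos _) h5
  rw [Real.log_exp, Real.log_mul (by positivity) (Real.exp_pos _).ne', Real.log_exp] at h6
  have h7 := le_abs_self (Real.log (2 * B / c * B ^ (2 * ((n : ℝ) + η))))
  rw [← hT]
  linarith

/-- **The digits in all directions.** -/
theorem digits (n : ℕ) (t : ℝ) (η : ℝ) (hη : 0 < η) : ∃ C : ℝ, 0 < C ∧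
    ∀ w w' : Fin (n + 1) → ℤ, w ≠ 0 → w' ≠ 0 → ¬ Prop2 w w' → ∀ H H' : ℝ, 1 ≤ H → 1 ≤ H' →
      (∀ i, |(w i : ℝ)| ≤ H) → (∀ i, |(w' i : ℝ)| ≤ H') → ∀ b b' : ℕ, 2 ≤ b → 2 ≤ b' →
      ∀ L L' : ℕ, min (L * Real.log b) (L' * Real.log b') ≤
        (n + 1 + η) * ((complexity b (num n t w) L + C) * Real.log b +
          (complexity b' (num n t w') L' + C) * Real.log b' + Real.log H + Real.log H') := by
  have hn0 : (0 : ℝ) ≤ n := Nat.cast_nonneg n
  obtain ⟨c₂, hc₂, h2⟩ := two_rel n (η / 2) (by positivity) t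
  obtain ⟨ε, hε⟩ : ∃ ε : ℝ, ε = η / (2 * (n + 1 + η)) := ⟨_, rfl⟩
  have hε0 : 0 < ε := by rw [hε]; positivity
  have hε1 : ((n : ℝ) + 1 + η / 2) * (1 + ε) ≤ n + 1 + η := by
    have h3 : ((n : ℝ) + 1 + η / 2) * ε ≤ η / 2 := by
      rw [hε, ← mul_div_assoc, div_le_iff₀ (by positivity)]
      nlinarith
    nlinarith
  obtain ⟨K, hK0, hK⟩ := F_linear 17 ε (by norm_num) hε0
  refine ⟨K + c₂ / 0.69 + 1, by positivity, ?_⟩
  intro w w' hw hw' hww H H' hH hH' hwH hwH' b b' hb hb' L L'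
  have hlog : ∀ b : ℕ, 2 ≤ b → 0.69 ≤ Real.log b := by
    intro b hb
    have h1 := Real.log_two_gt_d9
    have h2 := Real.log_le_log (by norm_num : (0 : ℝ) < 2) (by exact_mod_cast hb : (2 : ℝ) ≤ b)
    linarith
  have hl := hlog b hb
  have hl' := hlog b' hb'
  have hl0 : 0 < Real.log b := by linarith
  have hl0' : 0 < Real.log b' := by linarith
  have hh : 0 ≤ Real.log H := Real.log_nonneg hH
  have hh' : 0 ≤ Real.log H' := Real.log_nonneg hH'
  obtain ⟨r, hr⟩ := complexity_spec b (num n t w) L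
  obtain ⟨r', hr'⟩ := complexity_spec b' (num n t w') L'
  obtain ⟨m, hm⟩ : ∃ m, m = complexity b (num n t w) L := ⟨_, rfl⟩
  obtain ⟨m', hm'⟩ : ∃ m, m = complexity b' (num n t w') L' := ⟨_, rfl⟩
  rw [← hm] at hr ⊢
  rw [← hm'] at hr' ⊢
  have hm0 : (0 : ℝ) ≤ m := Nat.cast_nonneg m
  have hm0' : (0 : ℝ) ≤ m' := Nat.cast_nonneg m'
  have hF := hK m
  have hF' := hK m'
  have hFp := F_pos (by norm_num : (0 : ℝ) < 17) m
  have hFp' := F_pos (by norm_num : (0 : ℝ) < 17) m'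
  have hc2b : c₂ ≤ c₂ / 0.69 * Real.log b := by
    rw [div_mul_eq_mul_div, le_div_iff₀ (by norm_num)]
    nlinarith
  -- the estimate for `A = F 17 m log b`
  have est : ∀ (m : ℕ) (b : ℕ), 0.69 ≤ Real.log b → F 17 m ≤ (1 + ε) * m + K →
      ((n : ℝ) + 1 + η / 2) * (F 17 m * Real.log b) ≤
        (n + 1 + η) * ((m + K) * Real.log b) := by
    intro m b hl hF
    have hm0 : (0 : ℝ) ≤ m := Nat.cast_nonneg m
    have hl0 : 0 < Real.log b := by linarith
    have h3 : ((n : ℝ) + 1 + η / 2) * F 17 m ≤ (n + 1 + η) * (m + K) := by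
      calc ((n : ℝ) + 1 + η / 2) * F 17 m ≤ ((n : ℝ) + 1 + η / 2) * ((1 + ε) * m + K) := by gcongr
        _ = (((n : ℝ) + 1 + η / 2) * (1 + ε)) * m + ((n : ℝ) + 1 + η / 2) * K := by ring
        _ ≤ (n + 1 + η) * m + (n + 1 + η) * K := by
          have h4 := mul_le_mul_of_nonneg_right hε1 hm0
          have h5 : ((n : ℝ) + 1 + η / 2) * K ≤ (n + 1 + η) * K := by
            apply mul_le_mul_of_nonneg_right _ hK0
            linarith
          linarith
        _ = _ := by ring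
    calc ((n : ℝ) + 1 + η / 2) * (F 17 m * Real.log b) =
          (((n : ℝ) + 1 + η / 2) * F 17 m) * Real.log b := by ring
      _ ≤ ((n + 1 + η) * (m + K)) * Real.log b := by gcongr
      _ = _ := by ring
  have e1 := est m b hl hF
  have e2 := est m' b' hl' hF'
  have hpos : (0 : ℝ) < n + 1 + η := by linarith
  have hn1 : (1 : ℝ) ≤ n + 1 + η := by linarith
  -- the full right hand side
  have rhs : ((n : ℝ) + 1 + η / 2) * (F 17 m * Real.log b + F 17 m' * Real.log b' + Real.log H +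
      Real.log H') + c₂ ≤ (n + 1 + η) * ((m + (K + c₂ / 0.69 + 1)) * Real.log b +
        (m' + (K + c₂ / 0.69 + 1)) * Real.log b' + Real.log H + Real.log H') := by
    have h3 : ((n : ℝ) + 1 + η / 2) * (Real.log H + Real.log H') ≤
        (n + 1 + η) * (Real.log H + Real.log H') := by
      apply mul_le_mul_of_nonneg_right _ (by linarith)
      linarith
    have h4 : c₂ ≤ (n + 1 + η) * (c₂ / 0.69 * Real.log b) := by
      have : 0 ≤ c₂ / 0.69 * Real.log b := by positivity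
      nlinarith
    have h5 : 0 ≤ (n + 1 + η) * (1 * Real.log b + (c₂ / 0.69 + 1) * Real.log b') := by positivity
    nlinarith
  have hLb : (0 : ℝ) ≤ L * Real.log b := by positivity
  have hLb' : (0 : ℝ) ≤ L' * Real.log b' := by positivity
  have triv : ∀ (x : ℝ), (x ≤ F 17 m * Real.log b ∨ x ≤ F 17 m' * Real.log b') →
      x ≤ (n + 1 + η) * ((m + (K + c₂ / 0.69 + 1)) * Real.log b +
        (m' + (K + c₂ / 0.69 + 1)) * Real.log b' + Real.log H + Real.log H') := by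
    intro x hx
    refine le_trans ?_ rhs
    have h3 : 0 < F 17 m * Real.log b := by positivity
    have h4 : 0 < F 17 m' * Real.log b' := by positivity
    have h5 : F 17 m * Real.log b + F 17 m' * Real.log b' + Real.log H + Real.log H' ≤
        ((n : ℝ) + 1 + η / 2) * (F 17 m * Real.log b + F 17 m' * Real.log b' + Real.log H +
          Real.log H') := by
      have : 0 ≤ F 17 m * Real.log b + F 17 m' * Real.log b' + Real.log H + Real.log H' := by
        linarith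
      nlinarith
    rcases hx with hx | hx <;> linarith
  rcases approx b hb (num n t w) L m r hr with h3 | ⟨q, p, hq, hqA, hap⟩
  · refine (min_le_left _ _).trans (triv _ (Or.inl ?_))
    gcongr
  rcases approx b' hb' (num n t w') L' m' r' hr' with h3 | ⟨q', p', hq', hqA', hap'⟩
  · refine (min_le_right _ _).trans (triv _ (Or.inr ?_))
    gcongr
  refine le_trans ?_ rhs
  have h3 := h2 w w' hw hw' hww (Real.log H) (Real.log H') hh hh'
    (by rw [Real.exp_log (by linarith)]; exact hwH) (by rw [Real.exp_log (by linarith)]; exact hwH')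
    (F 17 m * Real.log b) (F 17 m' * Real.log b') (L * Real.log b) (L' * Real.log b')
    (by positivity) (by positivity) hLb hLb' q q' p p' hq hq' hqA hqA'
    (by rw [← sub_mul]; exact hap) (by rw [← sub_mul]; exact hap')
  exact h3

end Pool.Agent.U175.Rel
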