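import Pool.Agent.U175.Rel.Core

/-!
# The scale dichotomy for the relations between `1, e, …, e^n` and a real number `t`
-/

set_option autoImplicit false

namespace Pool.Agent.U175.Rel

open Finset
open Pool.Agent.N743 (Dichotomy engine large_scale)

/-- the height -/
def ht {k : ℕ} (v : Fin k → ℤ) : ℕ := Finset.univ.sup fun i => (v i).natAbs

lemma le_ht {k : ℕ} (v : Fin k → ℤ) (i : Fin k) : |(v i : ℝ)| ≤ ht v := by
  have h : (v i).natAbs ≤ ht v := Finset.le_sup (f := fun i => (v i).natAbs) (Finset.mem_univ i)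
  rw [← Int.cast_abs, Int.abs_eq_natAbs, Int.cast_natCast]
  exact_mod_cast h

lemma ht_le {k : ℕ} (v : Fin k → ℤ) (B : ℝ) (hB : 0 ≤ B) (h : ∀ i, |(v i : ℝ)| ≤ B) :
    (ht v : ℝ) ≤ B := by
  rcases isEmpty_or_nonempty (Fin k) with hk | hk
  · have : ht v = 0 := by
      unfold ht
      rw [Finset.univ_eq_empty, Finset.sup_empty]
      rfl
    rw [this]
    simpa using hB
  · obtain ⟨i, _, hi⟩ := Finset.exists_mem_eq_sup Finset.univ Finset.univ_nonempty
      (fun i => (v i).natAbs)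
    have h1 : (ht v : ℝ) = |(v i : ℝ)| := by
      unfold ht
      rw [hi, ← Int.cast_abs, Int.abs_eq_natAbs, Int.cast_natCast]
    rw [h1]
    exact h i

lemma ht_pos {k : ℕ} (v : Fin k → ℤ) (hv : v ≠ 0) : 1 ≤ ht v := by
  by_contra hcon
  apply hv
  funext i
  have h : (v i).natAbs ≤ ht v := Finset.le_sup (f := fun i => (v i).natAbs) (Finset.mem_univ i)
  have h1 : (v i).natAbs = 0 := by omega
  exact Int.natAbs_eq_zero.1 h1

lemma ht_smul {k : ℕ} (a : ℤ) (v : Fin k → ℤ) : (ht (a • v) : ℝ) = |(a : ℝ)| * ht v := by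
  apply le_antisymm
  · refine ht_le _ _ (by positivity) fun i => ?_
    have h1 : (((a • v) i : ℤ) : ℝ) = a * v i := by
      simp
    rw [h1, abs_mul]
    exact mul_le_mul_of_nonneg_left (le_ht v i) (abs_nonneg _)
  · by_cases ha : a = 0
    · simp [ha]
    · have ha' : 0 < |(a : ℝ)| := by
        rw [abs_pos]
        exact_mod_cast ha
      rw [mul_comm, ← le_div_iff₀ ha']
      refine ht_le _ _ (by positivity) fun i => ?_
      rw [le_div_iff₀ ha', mul_comm, ← abs_mul]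
      have h1 : (((a • v) i : ℤ) : ℝ) = a * v i := by
        simp
      rw [← h1]
      exact le_ht _ _

lemma form_smul (n : ℕ) (t : ℝ) (a : ℤ) (v : Fin (n + 2) → ℤ) :
    form n t (a • v) = a * form n t v := by
  unfold form
  rw [mul_add, Finset.mul_sum]
  congr 1
  · refine Finset.sum_congr rfl fun i _ => ?_
    simp only [Pi.smul_apply, smul_eq_mul]
    push_cast
    ring
  · simp only [Pi.smul_apply, smul_eq_mul]
    push_cast
    ring

/-- nonzero integer vectors -/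
abbrev Vec (n : ℕ) := {v : Fin (n + 2) → ℤ // v ≠ 0}

/-- proportionality -/
instance setoid (n : ℕ) : Setoid (Vec n) where
  r v w := Prop2 v.1 w.1
  iseqv := ⟨fun v => Prop2.refl v.1, fun h => h.symm, fun h h' => h.trans h'⟩

/-- the lines -/
def Line (n : ℕ) := Quotient (setoid n)

lemma exists_rep (n : ℕ) (q : Line n) : ∃ r : Vec n, (Quotient.mk (setoid n) r) = q ∧
    ∀ v : Vec n, (Quotient.mk (setoid n) v) = q → ht r.1 ≤ ht v.1 := by
  classical
  obtain ⟨v₀, hv₀⟩ := Quotient.exists_rep q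
  have hex : ∃ m : ℕ, ∃ v : Vec n, (Quotient.mk (setoid n) v) = q ∧ ht v.1 = m :=
    ⟨_, v₀, hv₀, rfl⟩
  obtain ⟨r, hr, hrm⟩ := Nat.find_spec hex
  refine ⟨r, hr, fun v hv => ?_⟩
  rw [hrm]
  exact Nat.find_min' hex ⟨v, hv, rfl⟩

/-- the representative of minimal height -/
noncomputable def rep (n : ℕ) (q : Line n) : Vec n := (exists_rep n q).choose

lemma rep_mk (n : ℕ) (q : Line n) : (Quotient.mk (setoid n) (rep n q)) = q :=
  (exists_rep n q).choose_spec.1

lemma rep_min (n : ℕ) (q : Line n) (v : Vec n) (hv : (Quotient.mk (setoid n) v) = q) :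
    ht (rep n q).1 ≤ ht v.1 := (exists_rep n q).choose_spec.2 v hv

lemma rep_prop (n : ℕ) (q : Line n) (v : Vec n) (hv : (Quotient.mk (setoid n) v) = q) :
    Prop2 v.1 (rep n q).1 := by
  have h : (Quotient.mk (setoid n) v) = Quotient.mk (setoid n) (rep n q) := by
    rw [hv, rep_mk]
  exact Quotient.exact h

lemma rep_form (n : ℕ) (t : ℝ) (q : Line n) (v : Vec n)
    (hv : (Quotient.mk (setoid n) v) = q) : |form n t (rep n q).1| ≤ |form n t v.1| := by
  obtain ⟨a, b, ha, hb, hab⟩ := rep_prop n q v hv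
  have h1 : |(a : ℝ)| * |form n t v.1| = |(b : ℝ)| * |form n t (rep n q).1| := by
    rw [← abs_mul, ← abs_mul, ← form_smul, ← form_smul, hab]
  have h2 : |(a : ℝ)| * ht v.1 = |(b : ℝ)| * ht (rep n q).1 := by
    rw [← ht_smul, ← ht_smul, hab]
  have h3 : (ht (rep n q).1 : ℝ) ≤ ht v.1 := by exact_mod_cast rep_min n q v hv
  have h4 : (1 : ℝ) ≤ ht (rep n q).1 := by exact_mod_cast ht_pos _ (rep n q).2
  have ha' : 0 < |(a : ℝ)| := by rw [abs_pos]; exact_mod_cast ha
  have hb' : 0 < |(b : ℝ)| := by rw [abs_pos]; exact_mod_cast hb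
  have h5 : |(a : ℝ)| ≤ |(b : ℝ)| := by
    by_contra hcon
    push Not at hcon
    have h6 : |(b : ℝ)| * ht (rep n q).1 < |(a : ℝ)| * ht v.1 := by
      calc |(b : ℝ)| * ht (rep n q).1 < |(a : ℝ)| * ht (rep n q).1 := by
            exact mul_lt_mul_of_pos_right hcon (by linarith)
        _ ≤ |(a : ℝ)| * ht v.1 := by gcongr
    linarith
  have h6 : |(b : ℝ)| * |form n t (rep n q).1| ≤ |(b : ℝ)| * |form n t v.1| := by
    rw [← h1]
    gcongr
  exact le_of_mul_le_mul_left h6 hb'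

/-- `v` is a relation of height at most `X^θ` up to an error at most `1 / X` -/
def NearRel (n : ℕ) (t θ X : ℝ) (v : Fin (n + 2) → ℤ) : Prop :=
  v ≠ 0 ∧ (∀ i, |(v i : ℝ)| ≤ X ^ θ) ∧ |form n t v| ≤ X⁻¹

theorem dich (n : ℕ) (t θ M : ℝ) (hθ : 0 < θ) (hM : 1 < M) (h : (n + 1) * (M + 1) * θ < 1) :
    Dichotomy (fun q : Line n => ∃ v : Vec n, (Quotient.mk (setoid n) v) = q ∧ form n t v.1 = 0)
      (fun X (q : Line n) => ∃ v : Vec n, (Quotient.mk (setoid n) v) = q ∧ NearRel n t θ X v.1)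
      M := by
  have hn0 : (0 : ℝ) ≤ n := Nat.cast_nonneg n
  obtain ⟨η, hη⟩ : ∃ η : ℝ, η = (1 / ((M + 1) * θ) - (n + 1)) / 2 := ⟨_, rfl⟩
  have hMθ : 0 < (M + 1) * θ := by positivity
  have h1 : (n : ℝ) + 1 < 1 / ((M + 1) * θ) := by
    rw [lt_div_iff₀ hMθ]
    linarith
  have hη0 : 0 < η := by rw [hη]; linarith
  have h2 : ((n : ℝ) + η + 1) * ((M + 1) * θ) < 1 := by
    rw [← lt_div_iff₀ hMθ, hη]
    linarith
  obtain ⟨c, hc, hel⟩ := elim n η hη0
  refine engine (α := Line n) (fun q => q) (fun q => (ht (rep n q).1 : ℝ))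
    (fun q => |form n t (rep n q).1|) (fun q => by exact_mod_cast ht_pos _ (rep n q).2)
    (fun q => abs_nonneg _) ((n : ℝ) + η + 1) (c / 2) (by positivity) (by positivity) ?_ _ _ 1 θ 1 M
    le_rfl hθ one_pos ?_ ?_ ?_ ?_ hM
  · intro q q' hqq'
    have hs : (1 : ℝ) ≤ ht (rep n q).1 := by exact_mod_cast ht_pos _ (rep n q).2
    have hs' : (1 : ℝ) ≤ ht (rep n q').1 := by exact_mod_cast ht_pos _ (rep n q').2
    have hnp : ¬ Prop2 (rep n q).1 (rep n q').1 := by
      intro hp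
      apply hqq'
      rw [← rep_mk n q, ← rep_mk n q']
      exact Quotient.sound hp
    have h3 := hel t _ _ (rep n q).2 (rep n q').2 hnp _ _ hs hs' (le_ht _) (le_ht _)
    obtain ⟨s, hsd⟩ : ∃ s : ℝ, s = ht (rep n q).1 := ⟨_, rfl⟩
    obtain ⟨s', hsd'⟩ : ∃ s : ℝ, s = ht (rep n q').1 := ⟨_, rfl⟩
    rw [← hsd, ← hsd'] at h3 ⊢
    rw [← hsd] at hs
    rw [← hsd'] at hs'
    obtain ⟨δ, hδ⟩ : ∃ δ, δ = max |form n t (rep n q).1| |form n t (rep n q').1| := ⟨_, rfl⟩
    have h4 : |form n t (rep n q).1| ≤ δ := by rw [hδ]; exact le_max_left _ _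
    have h5 : |form n t (rep n q').1| ≤ δ := by rw [hδ]; exact le_max_right _ _
    rw [← hδ]
    have hδ0 : 0 ≤ δ := (abs_nonneg _).trans h4
    have hss : 0 < s * s' := by positivity
    have h6 : c * (s * s') ^ (-((n : ℝ) + η)) ≤ 2 * (s * s') * δ := by
      calc _ ≤ _ := h3
        _ ≤ s' * δ + s * δ := by gcongr
        _ ≤ 2 * (s * s') * δ := by
          have h7 : s ≤ s * s' := by nlinarith
          have h8 : s' ≤ s * s' := by nlinarith
          nlinarith
    have h7 : (s * s') ^ (-((n : ℝ) + η + 1)) * (s * s') = (s * s') ^ (-((n : ℝ) + η)) := by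
      conv_lhs => rw [← Real.rpow_one (s * s'), ← Real.rpow_mul hss.le, ← Real.rpow_add hss]
      congr 1
      ring
    rw [← h7] at h6
    have h8 : (s * s') * (c / 2 * (s * s') ^ (-((n : ℝ) + η + 1))) ≤ (s * s') * δ := by
      nlinarith
    exact le_of_mul_le_mul_left h8 hss
  · rintro X hX q ⟨v, hv, hv0, hvs, hvf⟩
    have hX0 : 0 < X := by linarith
    refine ⟨q, rfl, ?_, ?_⟩
    · rw [one_mul]
      refine le_trans (by exact_mod_cast rep_min n q v hv) (ht_le v.1 _ (by positivity) hvs)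
    · rw [Real.rpow_neg_one]
      exact (rep_form n t q v hv).trans hvf
  · intro q
    constructor
    · rintro ⟨v, hv, h0⟩
      refine ⟨q, rfl, ?_⟩
      have h3 := rep_form n t q v hv
      rw [h0, abs_zero] at h3
      exact le_antisymm h3 (abs_nonneg _)
    · rintro ⟨q', rfl, h0⟩
      exact ⟨rep n q', rep_mk n q', abs_eq_zero.1 h0⟩
  · rintro q ⟨v, hv, h0⟩
    obtain ⟨K, hK1, hK⟩ := large_scale θ (ht v.1) hθ
    refine ⟨K, fun X hX => ⟨v, hv, v.2, fun i => (le_ht v.1 i).trans (hK X hX).le, ?_⟩⟩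
    rw [h0, abs_zero, inv_nonneg]
    have : K ≤ X := hX
    linarith
  · calc (M + 1) * (θ * ((n : ℝ) + η + 1)) = ((n : ℝ) + η + 1) * ((M + 1) * θ) := by ring
      _ < 1 := h2

end Pool.Agent.U175.Rel
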